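import Pool.Agent.Helper36.RI.Goals
import Pool.Agent.Helper93.RF.C8
import Pool.Agent.Helper59.RF.C10
import Pool.Agent.Helper49.RF.C6
import Pool.Agent.Helper77.RF.C9

/-!
MP_c98eff_gt, project RI, packet HEX: the heat equation along a framed flow.
-/

set_option autoImplicit false

open Set Filter Topology MeasureTheory Pool.Agent.Helper36.RS Pool.Agent.Helper73.RF
open Pool.Agent.Helper36.RI
open Pool.Agent.Helper47.RF hiding eps
open scoped ContDiff

namespace Pool.Agent.Helper27.RI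

theorem c8 : Goal_C8 := Pool.Agent.Helper93.RF.C8.goal_C8 c1 c2

theorem c6 : Goal_C6 := goal_C6 c1 c2

theorem c9 : Goal_C9 := Pool.Agent.Helper77.RF.goal_C9 c1 c2 c8

theorem c10 : Goal_C10 := goal_C10 c6 c8 c9

/-- the metric of a smooth invertible coframe -/
theorem gOf_metric {A θ : MF} (hinv : ∀ x, A x * θ x = 1) (hs : ∀ i a, Sm (fun x => θ x i a)) :
    IsMetric (gOf θ) := by
  refine ⟨fun i j => ?_, fun x => ?_⟩
  · have h1 : (fun x => gOf θ x i j) = fun x => ∑ a, θ x i a * θ x j a := by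
      funext x
      simp [gOf, Matrix.mul_apply, Matrix.transpose_apply]
    rw [h1]
    have h2 : (fun x => ∑ a, θ x i a * θ x j a)
        = (∑ a, (⟨fun x => θ x i a, hs i a⟩ : XS) * (⟨fun x => θ x j a, hs j a⟩ : XS) : XS).1 := by
      funext x
      simp
    rw [h2]
    exact Subtype.property _
  · have h2 := hinv x
    have h3 : Function.Injective (θ x).vecMul := by
      intro u v huv
      have h4 : θ x * A x = 1 := mul_eq_one_comm.1 h2
      have h5 : Matrix.vecMul (Matrix.vecMul u (θ x)) (A x)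
          = Matrix.vecMul (Matrix.vecMul v (θ x)) (A x) := by
        have : Matrix.vecMul u (θ x) = Matrix.vecMul v (θ x) := huv
        rw [this]
      rw [Matrix.vecMul_vecMul, Matrix.vecMul_vecMul, h4, Matrix.vecMul_one, Matrix.vecMul_one] at h5
      exact h5
    have h6 := Matrix.PosDef.mul_conjTranspose_self (θ x) h3
    rwa [Matrix.conjTranspose_eq_transpose_of_trivial] at h6

theorem gOf_inv {A θ : MF} {x : HH} (hinv : A x * θ x = 1) :
    (gOf θ x)⁻¹ = (A x).transpose * A x := by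
  apply Matrix.inv_eq_left_inv
  have h4 : θ x * A x = 1 := mul_eq_one_comm.1 hinv
  show (A x).transpose * A x * (θ x * (θ x).transpose) = 1
  calc (A x).transpose * A x * (θ x * (θ x).transpose)
      = (A x).transpose * (A x * θ x) * (θ x).transpose := by simp only [Matrix.mul_assoc]
    _ = (A x).transpose * (θ x).transpose := by rw [hinv, Matrix.mul_one]
    _ = (θ x * A x).transpose := by rw [Matrix.transpose_mul]
    _ = 1 := by rw [h4, Matrix.transpose_one]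

/-- a smooth family is bounded on compact time intervals -/
theorem fam_bdd {τ : ℝ} {f : ℝ → HH → ℝ} (hf : SmFam (Icc 0 τ) f) :
    ∃ M : ℝ, ∀ t ∈ Icc 0 τ, ∀ x ≠ 0, |f t x| ≤ M := by
  have hc : ContinuousOn (fun p : ℝ × HH => f p.1 p.2) (Icc 0 τ ×ˢ Metric.sphere (0 : HH) 1) := by
    refine (hf.cont []).mono ?_
    intro p hp
    refine ⟨hp.1, ?_⟩
    intro h0
    have h1 := hp.2
    rw [mem_singleton_iff] at h0
    rw [h0] at h1
    simp at h1
  have hK : IsCompact (Icc 0 τ ×ˢ Metric.sphere (0 : HH) 1) :=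
    isCompact_Icc.prod (isCompact_sphere _ _)
  obtain ⟨M, hM⟩ := (hK.image_of_continuousOn hc.abs).bddAbove
  refine ⟨M, fun t ht x hx => ?_⟩
  have hx0 : 0 < ‖x‖ := norm_pos_iff.2 hx
  have h1 := (hf.sm t ht).hom ‖x‖⁻¹ x (inv_pos.2 hx0)
  rw [← h1]
  refine hM ⟨(t, ‖x‖⁻¹ • x), ⟨ht, ?_⟩, rfl⟩
  rw [mem_sphere_zero_iff_norm, norm_smul, norm_inv, norm_norm, inv_mul_cancel₀ hx0.ne']

theorem smfam_congr {I : Set ℝ} {f g : ℝ → HH → ℝ} (h : ∀ t ∈ I, f t = g t) (hf : SmFam I f) :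
    SmFam I g := by
  refine ⟨fun t ht => h t ht ▸ hf.sm t ht, fun w => ?_⟩
  refine (hf.cont w).congr ?_
  intro p hp
  show Ew w (g p.1) p.2 = Ew w (f p.1) p.2
  rw [h p.1 hp.1]

theorem smfam1_congr {I : Set ℝ} {f f' g' : ℝ → HH → ℝ} (h : ∀ t ∈ I, f' t = g' t)
    (hf : SmFam1 I f f') : SmFam1 I f g' := by
  refine ⟨hf.fam, smfam_congr h hf.fam', fun w x hx t ht => ?_⟩
  rw [← h t ht]
  exact hf.der w x hx t ht

/-- a smooth family as a curve in the algebra -/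
theorem mkXS {I : Set ℝ} {F : ℝ → HH → ℝ} (hF : SmFam I F) :
    ∃ a : ℝ → XS, ∀ t ∈ I, (a t).1 = F t := by
  classical
  refine ⟨fun t => if h : t ∈ I then ⟨F t, hF.sm t h⟩ else 0, fun t ht => ?_⟩
  simp only [dif_pos ht]

/-- ellipticity -/
theorem ell {A θ : Matrix (Fin 3) (Fin 3) ℝ} (hinv : A * θ = 1) {M : ℝ} (hM0 : 0 < M)
    (hM : ∀ i a, |θ i a| ≤ M) (ξ : Fin 3 → ℝ) :
    (1 / (9 * M ^ 2)) * ∑ i, ξ i ^ 2 ≤ ∑ i, ∑ k, (∑ c, A c i * A c k) * ξ i * ξ k := by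
  have h4 : θ * A = 1 := mul_eq_one_comm.1 hinv
  obtain ⟨η, hη⟩ : ∃ η : Fin 3 → ℝ, η = fun c => ∑ i, A c i * ξ i := ⟨_, rfl⟩
  have h1 : ∑ i, ∑ k, (∑ c, A c i * A c k) * ξ i * ξ k = ∑ c, η c ^ 2 := by
    rw [hη]
    simp only [Fin.sum_univ_three]
    ring
  have h2 : ∀ i, ξ i = ∑ c, θ i c * η c := by
    intro i
    have h5 : Matrix.mulVec θ (Matrix.mulVec A ξ) = ξ := by
      rw [Matrix.mulVec_mulVec, h4, Matrix.one_mulVec]
    have h6 := congrFun h5 i
    rw [← h6, hη]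
    rfl
  have h3 : ∀ i, ξ i ^ 2 ≤ 3 * M ^ 2 * ∑ c, η c ^ 2 := by
    intro i
    have h7 : (∑ c, θ i c * η c) ^ 2 ≤ (∑ c, θ i c ^ 2) * ∑ c, η c ^ 2 :=
      Finset.sum_mul_sq_le_sq_mul_sq _ _ _
    have h8 : ∑ c, θ i c ^ 2 ≤ 3 * M ^ 2 := by
      have : ∀ c, θ i c ^ 2 ≤ M ^ 2 := fun c => sq_le_sq' (by
        have := abs_le.1 (hM i c); linarith [this.1]) (abs_le.1 (hM i c)).2
      calc ∑ c, θ i c ^ 2 ≤ ∑ _c : Fin 3, M ^ 2 := Finset.sum_le_sum fun c _ => this c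
        _ = 3 * M ^ 2 := by simp
    rw [h2 i]
    exact h7.trans (mul_le_mul_of_nonneg_right h8 (Finset.sum_nonneg fun c _ => sq_nonneg _))
  rw [h1]
  have h9 : ∑ i, ξ i ^ 2 ≤ 9 * M ^ 2 * ∑ c, η c ^ 2 := by
    calc ∑ i, ξ i ^ 2 ≤ ∑ _i : Fin 3, 3 * M ^ 2 * ∑ c, η c ^ 2 :=
          Finset.sum_le_sum fun i _ => h3 i
      _ = 9 * M ^ 2 * ∑ c, η c ^ 2 := by simp; ring
  rw [one_div, inv_mul_le_iff₀ (by positivity)]
  exact h9

/-- packet HEX -/
theorem hex : G_HEX := by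
  intro hlin hcv τ A θ hτ hfl f hf
  obtain ⟨r1, r2, r3, r4, r5, r6, r7, r8⟩ := c8 (Icc 0 τ)
  -- the metrics
  have hmet : ∀ t ∈ Icc 0 τ, IsMetric (gOf (θ t)) := fun t ht =>
    gOf_metric (hfl.inv t ht) (fun i a => (hfl.flt i a).fam.sm t ht)
  have hgfam : ∀ i j, SmFam (Icc 0 τ) (fun t x => gOf (θ t) x i j) := by
    intro i j
    have h1 : SmFam (Icc 0 τ) (fun t x => ∑ a, θ t x i a * θ t x j a) :=
      r8 (Fin 3) Finset.univ (fun a t x => θ t x i a * θ t x j a)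
        (fun a _ => r4 _ _ (hfl.flt i a).fam (hfl.flt j a).fam)
    refine smfam_congr ?_ h1
    intro t _
    funext x
    simp [gOf, Matrix.mul_apply, Matrix.transpose_apply]
  have hGam : ∀ i j k, SmFam (Icc 0 τ) (fun t => Gam (gOf (θ t)) i j k) :=
    ((c10 (Icc 0 τ) (fun t => gOf (θ t)) hmet).1 hgfam).2.2.1
  -- the coefficient functions
  have hA : ∀ i k, SmFam (Icc 0 τ) (fun t x => ∑ c, A t x c i * A t x c k) := fun i k =>
    r8 (Fin 3) Finset.univ (fun c t x => A t x c i * A t x c k)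
      (fun c _ => r4 _ _ (hfl.flA c i).fam (hfl.flA c k).fam)
  have hB : ∀ k, SmFam (Icc 0 τ) (fun t x => -∑ i, ∑ j, (∑ c, A t x c i * A t x c j)
      * Gam (gOf (θ t)) i j k x) := fun k =>
    r5 _ (r8 (Fin 3) Finset.univ (fun i t x => ∑ j, (∑ c, A t x c i * A t x c j)
      * Gam (gOf (θ t)) i j k x) (fun i _ => r8 (Fin 3) Finset.univ
        (fun j t x => (∑ c, A t x c i * A t x c j) * Gam (gOf (θ t)) i j k x)
        (fun j _ => r4 _ _ (hA i j) (hGam i j k))))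
  choose a ha using fun i k => mkXS (hA i k)
  choose b hb using fun k => mkXS (hB k)
  -- bound of `θ`
  have hbd : ∃ M : ℝ, 0 < M ∧ ∀ t ∈ Icc 0 τ, ∀ x ≠ 0, ∀ i j, |θ t x i j| ≤ M := by
    choose M hM using fun i j => fam_bdd (hfl.flt i j).fam
    refine ⟨∑ i, ∑ j, |M i j| + 1, by positivity, fun t ht x hx i j => ?_⟩
    have h1 := (hM i j t ht x hx).trans (le_abs_self (M i j))
    have h2 : |M i j| ≤ ∑ j, |M i j| :=
      Finset.single_le_sum (f := fun j => |M i j|) (fun j _ => abs_nonneg _) (Finset.mem_univ j)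
    have h3 : ∑ j, |M i j| ≤ ∑ i, ∑ j, |M i j| :=
      Finset.single_le_sum (f := fun i => ∑ j, |M i j|)
        (fun i _ => Finset.sum_nonneg fun j _ => abs_nonneg _) (Finset.mem_univ i)
    linarith
  obtain ⟨M, hM0, hM⟩ := hbd
  obtain ⟨u, hu0, hu⟩ := hlin τ (1 / (9 * M ^ 2)) a b ⟨f, hf⟩ hτ (by positivity)
    (fun i k => smfam_congr (fun t ht => (ha i k t ht).symm) (hA i k))
    (fun i => smfam_congr (fun t ht => (hb i t ht).symm) (hB i))
    (fun t ht x hx ξ => by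
      have h1 := ell (hfl.inv t ht x) hM0 (hM t ht x hx) ξ
      simpa only [ha _ _ t ht] using h1)
  refine ⟨fun t => (u t).1, ?_, fun x _ => by simp [hu0]⟩
  have h1 := hcv τ u _ hu
  refine smfam1_congr ?_ h1
  intro t ht
  funext x
  have hinv := gOf_inv (hfl.inv t ht x)
  have e1 : ∀ i k, (gOf (θ t) x)⁻¹ i k = ∑ c, A t x c i * A t x c k := by
    intro i k
    rw [hinv]
    simp [Matrix.mul_apply, Matrix.transpose_apply]
  have e2 : (∑ i, ∑ k, a i k t * Ed i (Ed k (u t)) + ∑ i, b i t * Ed i (u t) : XS).1 x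
      = ∑ i, ∑ k, (a i k t).1 x * E i (E k (u t).1) x + ∑ i, (b i t).1 x * E i (u t).1 x := by
    simp [Ed_val]
  rw [e2]
  simp only [ha _ _ t ht, hb _ t ht, LapC, e1]
  simp only [Fin.sum_univ_three]
  ring

end Pool.Agent.Helper27.RI
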